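import Pool.Agent.Q280.Basilica.Final

set_option autoImplicit false

/-!
# Fixed points in the Galois groups of the iterates of `x ^ 2 - 1`, shifted by `1`

The proportion of elements of the Galois group of `f ^ m - 1` with a fixed root tends to zero.

Outline of the proof. Call a vertex `v` of the tree of preimages *good* if the Kummer symbols of
`v` and `1 + v` are independent over the field generated by `v` and the roots of unity of
`2`-power order. All vertices of level two above `1` are good (`Q280.Basilica.good_level2`), and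
goodness passes to the vertices above. By induction the geometric Galois group of the tree above
a good vertex is described exactly (`Q280.Basilica.hyp`); this yields special elements
(`elA`, `elB`) which show that an element with fixed points at some level can be modified, without
changing it up to this level, such that the number of fixed points drops at the next level
(`key`). Together with transitivity this forces extinction (`Ext.extinction`).
-/

namespace Pool.Agent.Results.MP_0936a9_nt.FixedPointsVanish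

open Polynomial Filter

/-- the iterates of `f = X ^ 2 - 1` as polynomials -/
noncomputable def iter : ℕ → ℚ[X]
  | 0 => X
  | m + 1 => (iter m).comp (X ^ 2 - 1)

/-- the elements of the Galois group of `f ^ m - 1` which fix at least one root -/
def fixing (m : ℕ) : Set (iter m - 1).Gal :=
  {σ | ∃ β ∈ (iter m - 1).rootSet (iter m - 1).SplittingField, σ β = β}

/-- the proportion of these elements -/
noncomputable def δ (m : ℕ) : ℝ :=
  (Nat.card (fixing m) : ℝ) / (Nat.card (iter m - 1).Gal : ℝ)

lemma aeval_iter {K : Type*} [Field K] [Algebra ℚ K] (m : ℕ) (x : K) :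
    aeval x (iter m) = Q280.Basilica.f^[m] x := by
  induction m generalizing x with
  | zero => simp [iter]
  | succ m ih =>
    rw [iter, aeval_comp, Function.iterate_succ_apply, ← ih]
    congr 1
    simp [Q280.Basilica.f]

lemma ne_zero (m : ℕ) : iter m - 1 ≠ 0 := by
  intro h
  obtain ⟨x, hx⟩ := Q280.Basilica.exists_iter (Ω := AlgebraicClosure ℚ) m 0
  have h1 := congrArg (aeval x) h
  rw [map_sub, aeval_iter, hx, map_one, map_zero] at h1
  norm_num at h1

lemma mem_root {K : Type*} [Field K] [Algebra ℚ K] (m : ℕ) (x : K) :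
    x ∈ (iter m - 1).rootSet K ↔ Q280.Basilica.f^[m] x = 1 := by
  rw [mem_rootSet, and_iff_right (ne_zero m), map_sub, aeval_iter, map_one, sub_eq_zero]

lemma le_general {K Ω : Type*} [Field K] [Algebra ℚ K] [Field Ω] [Algebra ℚ Ω] [IsAlgClosed Ω]
    [Algebra.IsAlgebraic ℚ Ω] [CharZero Ω] (m C : ℕ) [IsSplittingField ℚ K (iter m - 1)]
    (jj : K →ₐ[ℚ] Ω) (hm : 2 ≤ m)
    (hC : ((C + 1) * Q280.Basilica.Ext.b C + 1) * C ≤ m - 2) :
    (Nat.card {σ : K ≃ₐ[ℚ] K // ∃ β, Q280.Basilica.f^[m] β = 1 ∧ σ β = β} : ℝ) /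
      (Nat.card (K ≃ₐ[ℚ] K) : ℝ) ≤ 8 / ((C : ℝ) + 1) := by
  classical
  let alg : Algebra K Ω := jj.toRingHom.toAlgebra
  have tow : IsScalarTower ℚ K Ω := IsScalarTower.of_algebraMap_eq fun x => (jj.commutes x).symm
  have nor : Normal ℚ K := Normal.of_isSplittingField (iter m - 1)
  have fd : FiniteDimensional ℚ K := IsSplittingField.finiteDimensional K (iter m - 1)
  have hK : ∀ x : Ω, Q280.Basilica.f^[m] x = 1 → ∃ y : K, algebraMap K Ω y = x := by
    intro x hx
    have h1 : x ∈ (iter m - 1).rootSet Ω := (mem_root m x).mpr hx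
    have h2 := (IsSplittingField.splits K (iter m - 1)).image_rootSet jj
    rw [← h2] at h1
    obtain ⟨y, -, hy⟩ := h1
    exact ⟨y, hy⟩
  have fin : Fintype (Q280.Basilica.Aut ℚ K) := Fintype.ofFinite _
  have main := Q280.Basilica.Final.bound (K := K) Ω m hK hm C hC
  have e1 : Nat.card {σ : K ≃ₐ[ℚ] K // ∃ β, Q280.Basilica.f^[m] β = 1 ∧ σ β = β} =
      ((Finset.univ : Finset (Q280.Basilica.Aut ℚ K)).filter
      (fun a => ∃ x, Q280.Basilica.f^[m] x = 1 ∧ a x = x)).card := by
    rw [← Fintype.card_subtype, ← Nat.card_eq_fintype_card]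
  have e2 : Nat.card (K ≃ₐ[ℚ] K) = Fintype.card (Q280.Basilica.Aut ℚ K) := by
    rw [← Nat.card_eq_fintype_card]
  rw [e1, e2]
  have hpos : 0 < Fintype.card (Q280.Basilica.Aut ℚ K) := Fintype.card_pos
  rw [div_le_div_iff₀ (by exact_mod_cast hpos) (by positivity)]
  have : (((C + 1) * ((Finset.univ : Finset (Q280.Basilica.Aut ℚ K)).filter
      (fun a => ∃ x, Q280.Basilica.f^[m] x = 1 ∧ a x = x)).card : ℕ) : ℝ) ≤
      ((8 * Fintype.card (Q280.Basilica.Aut ℚ K) : ℕ) : ℝ) := by
    exact_mod_cast main
  push_cast at this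
  linarith

lemma le (m C : ℕ) (hm : 2 ≤ m)
    (hC : ((C + 1) * Q280.Basilica.Ext.b C + 1) * C ≤ m - 2) :
    δ m ≤ 8 / ((C : ℝ) + 1) := by
  have h := @le_general (iter m - 1).SplittingField (AlgebraicClosure ℚ) _
    (SplittingField.instAlgebra_1 (iter m - 1)) _ (AlgebraicClosure.instAlgebra ℚ) _ _ _ m C _
    (IsSplittingField.lift _ (iter m - 1) (IsAlgClosed.splits _)) hm hC
  have e : fixing m = {σ : (iter m - 1).Gal | ∃ β, Q280.Basilica.f^[m] β = 1 ∧ σ β = β} := by
    unfold fixing
    simp only [mem_root]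
  unfold δ
  rw [e]
  exact h

/-- **Main result**: the proportion tends to zero. -/
theorem result : Tendsto δ atTop (nhds 0) := by
  rw [Metric.tendsto_atTop]
  intro ε hε
  obtain ⟨C, hC⟩ := exists_nat_gt (8 / ε)
  refine ⟨((C + 1) * Q280.Basilica.Ext.b C + 1) * C + 2, fun m hm => ?_⟩
  have h1 := le m C (by omega) (by omega)
  have h0 : 0 ≤ δ m := by unfold δ; positivity
  rw [Real.dist_eq, sub_zero, abs_of_nonneg h0]
  refine lt_of_le_of_lt h1 ?_
  rw [div_lt_iff₀ (by positivity)]
  rw [div_lt_iff₀ hε] at hC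
  nlinarith

end Pool.Agent.Results.MP_0936a9_nt.FixedPointsVanish
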